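import Mathlib

/-!
# MP_bbb74b_al, Q1: a partially positive word which is not potentially positive

In the free group of rank `r ≥ 3` the word `a²[b,c]a²[b,c]⁻¹` is partially positive (the generator
`a` occurs, and only with positive exponents), but no automorphism, and not even an injective
homomorphism to a free group, maps it to a positive word.
-/

set_option autoImplicit false
set_option linter.unusedSectionVars false

namespace Pool.Agent.Results.MP_bbb74b_al.NotPotentiallyPositive

open FreeGroup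

section words

variable {ι : Type} [DecidableEq ι]

/-- All letters of the list are positive. -/
def Pos (L : List (ι × Bool)) : Prop := ∀ x ∈ L, x.2 = true

/-- The exponent sum. -/
def hgt (g : FreeGroup ι) : ℤ :=
  Multiplicative.toAdd (FreeGroup.lift (fun _ : ι => Multiplicative.ofAdd (1 : ℤ)) g)

theorem hgt_mul (g h : FreeGroup ι) : hgt (g * h) = hgt g + hgt h := by
  simp [hgt]

theorem hgt_inv (g : FreeGroup ι) : hgt g⁻¹ = - hgt g := by
  simp [hgt]

theorem hgt_one : hgt (1 : FreeGroup ι) = 0 := by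
  simp [hgt]

theorem hgt_of (a : ι) : hgt (FreeGroup.of a) = 1 := by
  simp [hgt]

theorem hgt_conj (g p : FreeGroup ι) : hgt (p⁻¹ * g * p) = hgt g := by
  rw [hgt_mul, hgt_mul, hgt_inv]; ring

theorem hgt_cons (x : ι × Bool) (L : List (ι × Bool)) :
    hgt (mk (x :: L)) = (if x.2 = true then 1 else -1) + hgt (mk L) := by
  have : mk (x :: L) = mk [x] * mk L := by rw [mul_mk]; rfl
  rw [this, hgt_mul]
  congr 1
  rcases x with ⟨a, b⟩
  cases b
  · have : mk [(a, false)] = (FreeGroup.of a)⁻¹ := by
      rw [FreeGroup.of, inv_mk]; simp [invRev]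
    rw [this, hgt_inv, hgt_of]; simp
  · exact hgt_of a

theorem hgt_le (L : List (ι × Bool)) : hgt (mk L) ≤ L.length := by
  induction L with
  | nil => simp [← one_eq_mk, hgt_one]
  | cons x L ih =>
    rw [hgt_cons]
    push_cast [List.length_cons]
    split_ifs <;> omega

theorem pos_of_le (L : List (ι × Bool)) (h : (L.length : ℤ) ≤ hgt (mk L)) : Pos L := by
  induction L with
  | nil => intro x hx; simp at hx
  | cons x L ih =>
    rw [hgt_cons] at h
    push_cast [List.length_cons] at h
    have h1 := hgt_le L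
    have hx : x.2 = true := by
      by_contra hx
      rw [if_neg hx] at h
      omega
    rw [if_pos hx] at h
    have h2 := ih (by omega)
    intro y hy
    rcases List.mem_cons.mp hy with rfl | hy
    · exact hx
    · exact h2 y hy

theorem hgt_of_pos (L : List (ι × Bool)) (h : Pos L) : hgt (mk L) = L.length := by
  induction L with
  | nil => simp [← one_eq_mk, hgt_one]
  | cons x L ih =>
    rw [hgt_cons, if_pos (h x List.mem_cons_self), ih (fun y hy => h y (List.mem_cons_of_mem _ hy))]
    push_cast [List.length_cons]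
    ring

/-- A word of length equal to the norm of the element it represents is reduced. -/
theorem reduced_of_norm (L : List (ι × Bool)) (h : L.length ≤ (mk L).norm) : IsReduced L := by
  apply IsReduced.of_reduce_eq
  have h1 : List.Sublist (reduce L) L := (reduce.red (L := L)).sublist
  apply h1.eq_of_length
  have h2 := h1.length_le
  have h3 : (mk L).norm = (reduce L).length := by rw [FreeGroup.norm, toWord_mk]
  omega

theorem red_mid {K M : List (ι × Bool)} (h : IsReduced K) (A B : List (ι × Bool))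
    (e : A ++ M ++ B = K) : IsReduced M := by
  subst e
  exact List.IsChain.right_of_append (List.IsChain.left_of_append h)

/-- Decomposition of a product of two reduced words. -/
theorem decomp (U : List (ι × Bool)) : ∀ V : List (ι × Bool), IsReduced U → IsReduced V →
    ∃ U₁ C V₁, U = U₁ ++ C ∧ V = invRev C ++ V₁ ∧ IsReduced (U₁ ++ V₁) := by
  induction U using List.reverseRecOn with
  | nil => intro V _ hV; exact ⟨[], [], V, rfl, rfl, hV⟩
  | append_singleton U z ih =>
    intro V hU hV
    by_cases h : V.head? = some (z.1, !z.2)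
    · obtain ⟨V', rfl⟩ : ∃ V', V = (z.1, !z.2) :: V' := by
        cases V with
        | nil => simp at h
        | cons y V' =>
          rw [List.head?_cons, Option.some.injEq] at h
          exact ⟨V', by rw [h]⟩
      have hU' : IsReduced U := List.IsChain.left_of_append hU
      have hV' : IsReduced V' := by
        have : IsReduced ([(z.1, !z.2)] ++ V') := hV
        exact List.IsChain.right_of_append this
      obtain ⟨U₁, C, V₁, h1, h2, h3⟩ := ih V' hU' hV'
      refine ⟨U₁, C ++ [z], V₁, by rw [h1, List.append_assoc], ?_, h3⟩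
      rw [h2, invRev_append]
      simp [invRev]
    · refine ⟨U ++ [z], [], V, by simp, by simp [invRev], ?_⟩
      unfold FreeGroup.IsReduced
      rw [List.isChain_append]
      refine ⟨hU, hV, ?_⟩
      intro x hx y hy hxy
      rw [List.getLast?_append_of_ne_nil _ (by simp), List.getLast?_singleton,
        Option.mem_some_iff] at hx
      subst hx
      rw [Option.mem_def] at hy
      by_contra hne
      apply h
      rw [hy, Option.some.injEq]
      apply Prod.ext
      · exact hxy.symm
      · have : y.2 = !z.2 := by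
          cases hz : z.2 <;> cases hy' : y.2 <;> simp_all
        exact this

theorem toWord_mul_decomp (u v : FreeGroup ι) : ∃ U₁ C V₁, u.toWord = U₁ ++ C ∧
    v.toWord = invRev C ++ V₁ ∧ (u * v).toWord = U₁ ++ V₁ := by
  obtain ⟨U₁, C, V₁, h1, h2, h3⟩ := decomp u.toWord v.toWord isReduced_toWord isReduced_toWord
  refine ⟨U₁, C, V₁, h1, h2, ?_⟩
  have h4 : u * v = mk (U₁ ++ V₁) := by
    rw [← mk_toWord (x := u), ← mk_toWord (x := v), h1, h2]
    rw [← mul_mk, ← mul_mk, ← mul_mk, ← inv_mk]
    group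
  rw [h4, toWord_mk, h3.reduce_eq]

theorem norm_pow_le (g : FreeGroup ι) (n : ℕ) : (g ^ n).norm ≤ n * g.norm := by
  induction n with
  | zero => simp
  | succ n ih =>
    rw [pow_succ]
    have := norm_mul_le (g ^ n) g
    calc _ ≤ _ := this
      _ ≤ n * g.norm + g.norm := by omega
      _ = _ := by ring

theorem norm_conj_le (g p : FreeGroup ι) : (p⁻¹ * g * p).norm ≤ 2 * p.norm + g.norm := by
  have h1 := norm_mul_le (p⁻¹ * g) p
  have h2 := norm_mul_le p⁻¹ g
  rw [norm_inv_eq] at h2
  omega

/-- A cyclically reduced word is a shortest word in its conjugacy class. -/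
theorem cyc_shortest (W : List (ι × Bool)) (hW : IsCyclicallyReduced W) (p w : FreeGroup ι)
    (h : mk W = p⁻¹ * w * p) : W.length ≤ w.norm := by
  by_contra hcon
  push Not at hcon
  set n := 2 * p.norm + 1 with hn
  have h1 : (mk W ^ n).norm = n * W.length := by
    have hgen : ∀ n : ℕ, mk (List.replicate n W).flatten = mk W ^ n := by
      intro n
      induction n with
      | zero => simp [one_eq_mk]
      | succ n ih => rw [List.replicate_succ, List.flatten_cons, ← mul_mk, ih, pow_succ']
    rw [← hgen, FreeGroup.norm, toWord_mk, (hW.flatten_replicate n).isReduced.reduce_eq]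
    simp
  have h2 : (mk W) ^ n = p⁻¹ * w ^ n * p := by
    rw [h]
    have := conj_pow (a := p⁻¹) (b := w) (i := n)
    rw [inv_inv] at this
    exact this
  have h3 := norm_conj_le (w ^ n) p
  rw [← h2, h1] at h3
  have h4 := norm_pow_le w n
  have h5 : n * (w.norm + 1) ≤ n * W.length := Nat.mul_le_mul_left _ hcon
  have h6 : n * (w.norm + 1) = n * w.norm + n := by ring
  omega

/-- A cyclically reduced conjugate of a positive word is positive. -/
theorem pos_conj (W : List (ι × Bool)) (hW : IsCyclicallyReduced W) (p w : FreeGroup ι)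
    (h : mk W = p⁻¹ * w * p) (hw : Pos w.toWord) : Pos W := by
  apply pos_of_le
  rw [h, hgt_conj, ← mk_toWord (x := w), hgt_of_pos _ hw]
  exact_mod_cast cyc_shortest W hW p w h

/-- If a positive word `c ≠ 1` and `g⁻¹ c g` is not longer than `c`, then `g` or `g⁻¹` is
positive. -/
theorem pos_or_pos (c g : FreeGroup ι) (hc : Pos c.toWord) (hc1 : c ≠ 1)
    (h : (g⁻¹ * c * g).norm ≤ c.norm) : Pos g.toWord ∨ Pos (g⁻¹).toWord := by
  have hcn : 1 ≤ c.norm := by
    rw [Nat.one_le_iff_ne_zero]
    intro h0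
    exact hc1 (norm_eq_zero.mp h0)
  -- powers of `c`
  have hpow : ∀ n : ℕ, Pos (c ^ n).toWord ∧ (c ^ n).norm = n * c.norm := by
    intro n
    have hflat : IsReduced (List.replicate n c.toWord).flatten ∧
        Pos (List.replicate n c.toWord).flatten := by
      have hP : Pos (List.replicate n c.toWord).flatten := by
        intro x hx
        rw [List.mem_flatten] at hx
        obtain ⟨l, hl, hx⟩ := hx
        rw [List.mem_replicate] at hl
        rw [hl.2] at hx
        exact hc x hx
      refine ⟨?_, hP⟩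
      unfold FreeGroup.IsReduced
      rw [List.isChain_iff_forall_rel_of_append_cons_cons]
      intro a b l1 l2 hl _
      rw [hP a (by rw [hl]; simp), hP b (by rw [hl]; simp)]
    have hgen : ∀ n : ℕ, mk (List.replicate n c.toWord).flatten = c ^ n := by
      intro n
      induction n with
      | zero => simp [one_eq_mk]
      | succ n ih =>
        rw [List.replicate_succ, List.flatten_cons, ← mul_mk, ih, pow_succ', mk_toWord]
    have hw : (c ^ n).toWord = (List.replicate n c.toWord).flatten := by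
      rw [← hgen, toWord_mk, hflat.1.reduce_eq]
    refine ⟨by rw [hw]; exact hflat.2, ?_⟩
    rw [FreeGroup.norm, hw]
    simp [FreeGroup.norm]
  obtain ⟨N, hN⟩ : ∃ N, N = c ^ (2 * g.norm + 1) := ⟨_, rfl⟩
  have hNpos : Pos N.toWord := by rw [hN]; exact (hpow _).1
  have hNnorm : N.norm = (2 * g.norm + 1) * c.norm := by rw [hN]; exact (hpow _).2
  have hNbig : 2 * g.norm + 1 ≤ N.norm := by
    rw [hNnorm]; exact Nat.le_mul_of_pos_right _ hcn
  have hNconj : (g⁻¹ * (N * g)).norm ≤ N.norm := by
    have e : g⁻¹ * (N * g) = (g⁻¹ * c * g) ^ (2 * g.norm + 1) := by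
      have := conj_pow (a := g⁻¹) (b := c) (i := 2 * g.norm + 1)
      rw [inv_inv] at this
      rw [this, hN]; group
    rw [e, hNnorm]
    exact (norm_pow_le _ _).trans (Nat.mul_le_mul_left _ h)
  obtain ⟨A, B, D, h1, h2, h3⟩ := toWord_mul_decomp N g
  obtain ⟨E, Fw, H, h4, h5, h6⟩ := toWord_mul_decomp g⁻¹ (N * g)
  have l1 : N.norm = A.length + B.length := by rw [FreeGroup.norm, h1]; simp
  have l2 : g.norm = B.length + D.length := by rw [FreeGroup.norm, h2]; simp
  have l3 : (N * g).norm = A.length + D.length := by rw [FreeGroup.norm, h3]; simp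
  have l4 : g.norm = E.length + Fw.length := by
    rw [← norm_inv_eq, FreeGroup.norm, h4]; simp
  have l5 : (N * g).norm = Fw.length + H.length := by rw [FreeGroup.norm, h5]; simp
  have l6 : (g⁻¹ * (N * g)).norm = E.length + H.length := by rw [FreeGroup.norm, h6]; simp
  have hBpos : Pos B := fun x hx => hNpos x (by rw [h1]; exact List.mem_append_right _ hx)
  -- `invRev Fw` is a prefix of `A`
  have hFA : invRev Fw <+: A := by
    have e : invRev Fw ++ H = A ++ D := by rw [← h5, h3]
    have p1 : invRev Fw <+: A ++ D := ⟨H, e⟩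
    have p2 : A <+: A ++ D := ⟨D, rfl⟩
    apply List.prefix_of_prefix_length_le p1 p2
    rw [invRev_length]
    omega
  have hFpos : Pos (invRev Fw) := by
    intro x hx
    apply hNpos x
    rw [h1]
    exact List.mem_append_left _ (hFA.subset hx)
  have hgF : g.toWord = invRev Fw ++ invRev E := by
    have : invRev (g⁻¹.toWord) = g.toWord := by rw [toWord_inv, invRev_invRev]
    rw [← this, h4, invRev_append]
  by_cases hB : B = []
  · left
    have hE : E = [] := by
      rw [← List.length_eq_zero_iff]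
      rw [hB] at l1 l2
      simp only [List.length_nil] at l1 l2
      omega
    rw [hgF, hE]
    simpa [invRev] using hFpos
  · by_cases hF : Fw = []
    · right
      have hD : D = [] := by
        rw [← List.length_eq_zero_iff]
        rw [hF] at l4 l5
        simp only [List.length_nil] at l4 l5
        omega
      rw [toWord_inv, h2, hD, List.append_nil, invRev_invRev]
      exact hBpos
    · exfalso
      -- the first letter of `g`
      obtain ⟨B', x, rfl⟩ := List.eq_nil_or_concat B |>.resolve_left hB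
      obtain ⟨F', y, rfl⟩ := List.eq_nil_or_concat Fw |>.resolve_left hF
      have e1 : g.toWord.head? = some (x.1, !x.2) := by
        rw [h2, List.concat_eq_append, invRev_append]; simp [invRev]
      have e2 : g.toWord.head? = some (y.1, !y.2) := by
        rw [hgF, List.concat_eq_append, invRev_append]; simp [invRev]
      have e3 : x.2 = true := hBpos x (by simp)
      have e4 : (!y.2) = true := hFpos (y.1, !y.2) (by
        rw [List.concat_eq_append, invRev_append]; simp [invRev])
      rw [e1, Option.some.injEq] at e2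
      have e5 := congrArg Prod.snd e2
      simp only at e5
      rw [e3, e4] at e5
      simp at e5

/-- Normal form of a nontrivial element and of its square. -/
theorem sq (U : FreeGroup ι) (hU : U ≠ 1) : ∃ G C : List (ι × Bool),
    U.toWord = G ++ C ++ invRev G ∧ C ≠ [] ∧ IsCyclicallyReduced C ∧
    IsReduced ((G ++ C) ++ (C ++ invRev G)) ∧ mk ((G ++ C) ++ (C ++ invRev G)) = U * U := by
  have h0 := reduceCyclically.conj_conjugator_reduceCyclically U.toWord
  have hC := reduceCyclically.isCyclicallyReduced (isReduced_toWord (x := U))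
  refine ⟨reduceCyclically.conjugator U.toWord, reduceCyclically U.toWord, h0.symm, ?_, hC, ?_, ?_⟩
  · intro h
    apply hU
    rw [h, List.append_nil] at h0
    rw [← mk_toWord (x := U), ← h0, ← mul_mk, ← inv_mk, mul_inv_cancel]
  · have h1 := IsReduced.append_flatten_replicate_append (n := 2) hC
      (L₁ := reduceCyclically.conjugator U.toWord)
      (L₃ := invRev (reduceCyclically.conjugator U.toWord)) (by rw [h0]; exact isReduced_toWord)
      (by norm_num)
    simpa [List.replicate] using h1
  · conv_rhs => rw [← mk_toWord (x := U), ← h0]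
    simp only [← mul_mk, ← inv_mk]
    group

theorem cyc_of (W W1 : List (ι × Bool)) (l : ι × Bool) (hW : W = l :: W1)
    (h : IsReduced (W ++ [l])) : IsCyclicallyReduced W := by
  unfold FreeGroup.IsReduced at h
  rw [List.isChain_append] at h
  refine ⟨h.1, fun a ha b hb => ?_⟩
  rw [hW, List.head?_cons, Option.mem_some_iff] at hb
  subst hb
  exact h.2.2 a ha _ (by simp)

/-- Case A: `U` is not cyclically reduced. -/
theorem caseA (U Z : FreeGroup ι) (hZ : Z ≠ 1) (G C : List (ι × Bool)) (hG : G ≠ [])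
    (hU : U.toWord = G ++ C ++ invRev G)
    (hU2 : IsReduced ((G ++ C) ++ (C ++ invRev G)))
    (hU3 : mk ((G ++ C) ++ (C ++ invRev G)) = U * U)
    (M1 : ∀ e : FreeGroup ι, U.norm + Z.norm ≤ (e⁻¹ * U * e).norm + (e⁻¹ * Z * e).norm)
    (p w : FreeGroup ι) (hw : Pos w.toWord) (hconj : U * U * (Z * Z) = p⁻¹ * w * p) : False := by
  obtain ⟨l, G1, rfl⟩ := List.exists_cons_of_ne_nil hG
  obtain ⟨l', hl'⟩ : ∃ l', l' = (l.1, !l.2) := ⟨_, rfl⟩
  have hinv : invRev (l :: G1) = invRev G1 ++ [l'] := by rw [hl']; simp [invRev]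
  have hmk : (mk [l])⁻¹ = mk [l'] := by rw [inv_mk, hl']; simp [invRev]
  -- conjugating by the first letter
  have n1 : ((mk [l])⁻¹ * U * mk [l]).norm + 2 ≤ U.norm := by
    have e : (mk [l])⁻¹ * U * mk [l] = mk (G1 ++ C ++ invRev G1) := by
      rw [← mk_toWord (x := U), hU, hinv]
      have e1 : mk (l :: G1 ++ C ++ (invRev G1 ++ [l'])) =
          mk [l] * mk (G1 ++ C ++ invRev G1) * mk [l'] := by
        rw [mul_mk, mul_mk]; congr 1; simp
      rw [e1, ← hmk]; group
    have e2 : U.norm = (G1 ++ C ++ invRev G1).length + 2 := by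
      rw [FreeGroup.norm, hU, hinv]; simp; omega
    rw [e, e2]
    exact Nat.add_le_add_right norm_mk_le 2
  obtain ⟨G', C', z1, z2, -, z4, z5⟩ := sq Z hZ
  have hred : IsReduced ([l'] ++ (G' ++ C' ++ invRev G') ++ [l]) := by
    apply reduced_of_norm
    have e : mk ([l'] ++ (G' ++ C' ++ invRev G') ++ [l]) = (mk [l])⁻¹ * Z * mk [l] := by
      rw [hmk, ← mul_mk, ← mul_mk, ← z1, mk_toWord]
    have hZn : Z.norm = (G' ++ C' ++ invRev G').length := by rw [FreeGroup.norm, z1]
    rw [e]
    have := M1 (mk [l])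
    simp only [List.length_append, List.length_singleton] at hZn ⊢
    omega
  have r1 : IsReduced ([l'] ++ (G' ++ C')) := red_mid hred ([]) (invRev G' ++ [l]) (by simp)
  have r2 : IsReduced ([l'] ++ (G' ++ C') ++ (C' ++ invRev G')) :=
    r1.append_overlap z4 (by simp [z2])
  have r3 : IsReduced ((C' ++ invRev G') ++ [l]) := red_mid hred ([l'] ++ G') ([]) (by simp)
  have r4 : IsReduced (([l'] ++ (G' ++ C')) ++ (C' ++ invRev G') ++ [l]) :=
    r2.append_overlap r3 (by simp [z2])
  have r5 : IsReduced ((l :: G1 ++ C ++ (C ++ invRev G1)) ++ [l']) := by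
    rw [hinv] at hU2
    have e : (l :: G1 ++ C ++ (C ++ invRev G1)) ++ [l'] =
      (l :: G1 ++ C) ++ (C ++ (invRev G1 ++ [l'])) := by simp
    rw [e]; exact hU2
  have r6 : IsReduced ((l :: G1 ++ C ++ (C ++ invRev G1)) ++ [l'] ++
      ((G' ++ C') ++ (C' ++ invRev G') ++ [l])) := by
    apply r5.append_overlap _ (by simp)
    have e : [l'] ++ ((G' ++ C') ++ (C' ++ invRev G') ++ [l]) =
      ([l'] ++ (G' ++ C')) ++ (C' ++ invRev G') ++ [l] := by simp
    rw [e]; exact r4
  obtain ⟨W, hW⟩ : ∃ W, W = (l :: G1 ++ C) ++ (C ++ invRev (l :: G1)) ++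
    ((G' ++ C') ++ (C' ++ invRev G')) := ⟨_, rfl⟩
  have hWcyc : IsCyclicallyReduced W := by
    apply cyc_of W (G1 ++ C ++ (C ++ invRev (l :: G1)) ++
      ((G' ++ C') ++ (C' ++ invRev G'))) l (by rw [hW]; simp)
    rw [hW, hinv]
    have e : (l :: G1 ++ C) ++ (C ++ (invRev G1 ++ [l'])) ++
      ((G' ++ C') ++ (C' ++ invRev G')) ++ [l] = (l :: G1 ++ C ++ (C ++ invRev G1)) ++ [l'] ++
      ((G' ++ C') ++ (C' ++ invRev G') ++ [l]) := by simp
    rw [e]; exact r6
  have hWmk : mk W = p⁻¹ * w * p := by
    rw [← hconj, hW, ← mul_mk, hU3, z5]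
  have hWpos := pos_conj W hWcyc p w hWmk hw
  have p1 := hWpos l (by rw [hW]; simp)
  have p2 := hWpos l' (by rw [hW, hinv]; simp)
  rw [hl'] at p2
  simp only at p2
  rw [p1] at p2
  simp at p2

/-- Case C: both elements are cyclically reduced. -/
theorem caseC (U Z k : FreeGroup ι) (hUcyc : IsCyclicallyReduced U.toWord)
    (hZcyc : IsCyclicallyReduced Z.toWord) (hZk : Z = k⁻¹ * U * k) (hk : hgt k = 0) (hk1 : k ≠ 1)
    (hUZ : U * Z ≠ 1)
    (M1 : ∀ e : FreeGroup ι, U.norm + Z.norm ≤ (e⁻¹ * U * e).norm + (e⁻¹ * Z * e).norm)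
    (M2 : ∀ e : FreeGroup ι, (e⁻¹ * U * e).norm + (e⁻¹ * Z * e).norm = U.norm + Z.norm →
      (U * Z).norm ≤ (e⁻¹ * (U * Z) * e).norm)
    (p w : FreeGroup ι) (hw : Pos w.toWord) (hconj : U * U * (Z * Z) = p⁻¹ * w * p) : False := by
  have hU1 : U ≠ 1 := by
    rintro rfl
    apply hUZ
    rw [hZk]; group
  have hnorm : U.norm = Z.norm := by
    apply le_antisymm
    · exact cyc_shortest U.toWord hUcyc k⁻¹ Z (by rw [mk_toWord, hZk]; group)
    · exact cyc_shortest Z.toWord hZcyc k U (by rw [mk_toWord, hZk])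
  obtain ⟨S, T, S', h1, h2, h3⟩ := toWord_mul_decomp U Z
  have lU : U.norm = S.length + T.length := by rw [FreeGroup.norm, h1]; simp
  have lZ : Z.norm = T.length + S'.length := by rw [FreeGroup.norm, h2]; simp
  have hS : S ≠ [] := by
    intro h
    have h' : S' = [] := by
      rw [← List.length_eq_zero_iff]
      rw [h] at lU
      simp only [List.length_nil] at lU
      omega
    apply hUZ
    rw [← toWord_eq_nil_iff, h3, h, h']
    rfl
  have hS' : S' ≠ [] := by
    intro h
    apply hS
    rw [← List.length_eq_zero_iff]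
    rw [h] at lZ
    simp only [List.length_nil] at lZ
    omega
  -- no cancellation in `Z * U`
  have hZU : IsReduced (Z.toWord ++ U.toWord) := by
    unfold FreeGroup.IsReduced
    rw [List.isChain_append]
    refine ⟨hZcyc.1, hUcyc.1, ?_⟩
    intro x hx l hl hxl
    by_contra hne
    have hx' : x = (l.1, !l.2) := by
      apply Prod.ext
      · exact hxl
      · show x.2 = !l.2
        cases h1 : x.2 <;> cases h2 : l.2 <;> simp_all
    obtain ⟨S1, rfl⟩ : ∃ S1, S = l :: S1 := by
      obtain ⟨s, S1, rfl⟩ := List.exists_cons_of_ne_nil hS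
      rw [h1] at hl
      simp only [List.cons_append, List.head?_cons, Option.mem_some_iff] at hl
      exact ⟨S1, by rw [hl]⟩
    obtain ⟨S2, rfl⟩ : ∃ S2, S' = S2 ++ [(l.1, !l.2)] := by
      obtain ⟨S2, s, rfl⟩ := List.eq_nil_or_concat S' |>.resolve_left hS'
      rw [h2, List.concat_eq_append, ← List.append_assoc, List.getLast?_append_of_ne_nil _ (by simp),
        List.getLast?_singleton, Option.mem_some_iff] at hx
      exact ⟨S2, by rw [List.concat_eq_append, hx, hx']⟩
    have hmk : (mk [l])⁻¹ = mk [(l.1, !l.2)] := by rw [inv_mk]; simp [invRev]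
    have hmk' : mk [(l.1, !l.2)] = (mk [l])⁻¹ := hmk.symm
    have e1 : (mk [l])⁻¹ * U * mk [l] = mk (S1 ++ T ++ [l]) := by
      rw [← mk_toWord (x := U), h1]
      have : mk (l :: S1 ++ T) = mk [l] * mk (S1 ++ T) := by rw [mul_mk]; simp
      rw [this, ← mul_mk (L₁ := S1 ++ T)]; group
    have e2 : (mk [l])⁻¹ * Z * mk [l] = mk ([(l.1, !l.2)] ++ (invRev T ++ S2)) := by
      rw [← mk_toWord (x := Z), h2]
      have : mk (invRev T ++ (S2 ++ [(l.1, !l.2)])) = mk (invRev T ++ S2) * (mk [l])⁻¹ := by
        rw [hmk, mul_mk]; simp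
      rw [this, ← mul_mk (L₁ := [(l.1, !l.2)]), hmk']; group
    have e3 : (mk [l])⁻¹ * (U * Z) * mk [l] = mk (S1 ++ S2) := by
      rw [← mk_toWord (x := U * Z), h3]
      have : mk (l :: S1 ++ (S2 ++ [(l.1, !l.2)])) = mk [l] * mk (S1 ++ S2) * (mk [l])⁻¹ := by
        rw [hmk, mul_mk, mul_mk]; simp
      rw [this]; group
    have n1 : ((mk [l])⁻¹ * U * mk [l]).norm ≤ U.norm := by
      rw [e1]
      refine norm_mk_le.trans ?_
      rw [lU]; simp; omega
    have n2 : ((mk [l])⁻¹ * Z * mk [l]).norm ≤ Z.norm := by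
      rw [e2]
      refine norm_mk_le.trans ?_
      rw [lZ]
      simp only [List.length_append, List.length_cons, List.length_nil, invRev_length]
      omega
    have n3 := M2 (mk [l]) (le_antisymm (Nat.add_le_add n1 n2) (M1 (mk [l])))
    rw [e3] at n3
    have n4 := n3.trans norm_mk_le
    rw [FreeGroup.norm, h3] at n4
    simp only [List.length_append, List.length_cons, List.length_nil] at n4
    omega
  -- the cyclically reduced word
  have r1 : IsReduced (S ++ T ++ S) := by
    have := (hUcyc.flatten_replicate 2).isReduced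
    rw [h1] at this
    exact red_mid this ([]) (T) (by simp [List.replicate])
  have r2 : IsReduced (S ++ S') := by
    have := isReduced_toWord (x := U * Z)
    rwa [h3] at this
  have r3 : IsReduced (S ++ T ++ S ++ S') := r1.append_overlap r2 hS
  have r4 : IsReduced (S' ++ (invRev T ++ S')) := by
    have := (hZcyc.flatten_replicate 2).isReduced
    rw [h2] at this
    exact red_mid this (invRev T) ([]) (by simp [List.replicate])
  have r5 : IsReduced ((S ++ T ++ S) ++ S' ++ (invRev T ++ S')) := r3.append_overlap r4 hS'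
  obtain ⟨s, S1, hs⟩ := List.exists_cons_of_ne_nil hS
  have r6 : IsReduced (S' ++ [s]) := by
    rw [h1, h2, hs] at hZU
    exact red_mid hZU (invRev T) (S1 ++ T) (by simp)
  have r7 : IsReduced (((S ++ T ++ S) ++ S' ++ invRev T) ++ S' ++ [s]) := by
    refine IsReduced.append_overlap ?_ r6 hS'
    have e : ((S ++ T ++ S) ++ S' ++ invRev T) ++ S' = (S ++ T ++ S) ++ S' ++ (invRev T ++ S') := by
      simp
    rw [e]; exact r5
  obtain ⟨W, hW⟩ : ∃ W, W = ((S ++ T ++ S) ++ S' ++ invRev T) ++ S' := ⟨_, rfl⟩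
  have hWcyc : IsCyclicallyReduced W := by
    apply cyc_of W (S1 ++ T ++ S ++ S' ++ invRev T ++ S') s (by rw [hW]; simp [hs])
    rw [hW]; exact r7
  have hWmk : mk W = p⁻¹ * w * p := by
    rw [← hconj, hW, ← mk_toWord (x := U), ← mk_toWord (x := Z), h1, h2]
    simp only [← mul_mk, ← inv_mk]
    group
  have hWpos := pos_conj W hWcyc p w hWmk hw
  -- `T` is empty
  have hT : T = [] := by
    cases T with
    | nil => rfl
    | cons t T =>
      exfalso
      have p1 := hWpos t (by rw [hW]; simp)
      have p2 := hWpos (t.1, !t.2) (by rw [hW]; simp [invRev])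
      simp only at p2
      rw [p1] at p2
      simp at p2
  have hUpos : Pos U.toWord := by
    intro x hx
    rw [h1, hT, List.append_nil] at hx
    exact hWpos x (by rw [hW]; simp [hx])
  apply hk1
  rcases pos_or_pos U k hUpos hU1 (by rw [← hZk, hnorm]) with h | h
  · have := hgt_of_pos _ h
    rw [mk_toWord, hk] at this
    rw [← FreeGroup.norm_eq_zero, FreeGroup.norm]
    exact_mod_cast this.symm
  · have := hgt_of_pos _ h
    rw [mk_toWord, hgt_inv, hk, neg_zero] at this
    rw [← FreeGroup.norm_eq_zero, ← norm_inv_eq, FreeGroup.norm]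
    exact_mod_cast this.symm

/-- The main step. -/
theorem core (u v : FreeGroup ι) (hv : hgt v = 0) (hv1 : v ≠ 1) (huz : u * (v * u * v⁻¹) ≠ 1) :
    ¬ Pos (u * u * v * (u * u) * v⁻¹).toWord := by
  intro hw
  obtain ⟨z, hz⟩ : ∃ z, z = v * u * v⁻¹ := ⟨_, rfl⟩
  -- a base point minimising the displacements
  obtain ⟨p0, hp0⟩ : ∃ p0 : FreeGroup ι, ∀ q : FreeGroup ι,
      (p0⁻¹ * u * p0).norm + (p0⁻¹ * z * p0).norm ≤ (q⁻¹ * u * q).norm + (q⁻¹ * z * q).norm :=
    ⟨Function.argmin (fun q : FreeGroup ι => (q⁻¹ * u * q).norm + (q⁻¹ * z * q).norm),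
      fun q => Function.argmin_le (fun q : FreeGroup ι =>
        (q⁻¹ * u * q).norm + (q⁻¹ * z * q).norm) q⟩
  obtain ⟨p, hp1, hp2⟩ : ∃ p : FreeGroup ι, (∀ q : FreeGroup ι,
      (p⁻¹ * u * p).norm + (p⁻¹ * z * p).norm ≤ (q⁻¹ * u * q).norm + (q⁻¹ * z * q).norm) ∧
      ∀ q : FreeGroup ι, (q⁻¹ * u * q).norm + (q⁻¹ * z * q).norm =
        (p⁻¹ * u * p).norm + (p⁻¹ * z * p).norm →
        (p⁻¹ * (u * z) * p).norm ≤ (q⁻¹ * (u * z) * q).norm := by
    let Sub := {q : FreeGroup ι // (q⁻¹ * u * q).norm + (q⁻¹ * z * q).norm =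
        (p0⁻¹ * u * p0).norm + (p0⁻¹ * z * p0).norm}
    have : Nonempty Sub := ⟨⟨p0, rfl⟩⟩
    let f : Sub → ℕ := fun q => (q.1⁻¹ * (u * z) * q.1).norm
    refine ⟨(Function.argmin f).1, ?_, ?_⟩
    · intro q
      rw [(Function.argmin f).2]
      exact hp0 q
    · intro q hq
      rw [(Function.argmin f).2] at hq
      exact Function.argmin_le f ⟨q, hq⟩
  obtain ⟨U, hU⟩ : ∃ U, U = p⁻¹ * u * p := ⟨_, rfl⟩
  obtain ⟨Z, hZ⟩ : ∃ Z, Z = p⁻¹ * z * p := ⟨_, rfl⟩
  obtain ⟨k, hk⟩ : ∃ k, k = p⁻¹ * v⁻¹ * p := ⟨_, rfl⟩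
  have hZk : Z = k⁻¹ * U * k := by rw [hZ, hz, hk, hU]; group
  have hk0 : hgt k = 0 := by rw [hk, hgt_conj, hgt_inv, hv, neg_zero]
  have hk1 : k ≠ 1 := by
    intro h
    apply hv1
    have : v = p * k⁻¹ * p⁻¹ := by rw [hk]; group
    rw [this, h]; group
  have hUZ : U * Z ≠ 1 := by
    intro h
    apply huz
    have : u * (v * u * v⁻¹) = p * (U * Z) * p⁻¹ := by rw [hU, hZ, hz]; group
    rw [this, h]; group
  have hU1 : U ≠ 1 := by
    rintro rfl
    apply hUZ
    rw [hZk]; group
  have hZ1 : Z ≠ 1 := by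
    rintro rfl
    apply hU1
    have : U = k * (k⁻¹ * U * k) * k⁻¹ := by group
    rw [this, ← hZk]; group
  have M1 : ∀ e : FreeGroup ι, U.norm + Z.norm ≤ (e⁻¹ * U * e).norm + (e⁻¹ * Z * e).norm := by
    intro e
    have e1 : e⁻¹ * U * e = (p * e)⁻¹ * u * (p * e) := by rw [hU]; group
    have e2 : e⁻¹ * Z * e = (p * e)⁻¹ * z * (p * e) := by rw [hZ]; group
    rw [e1, e2, hU, hZ]
    exact hp1 (p * e)
  have M2 : ∀ e : FreeGroup ι, (e⁻¹ * U * e).norm + (e⁻¹ * Z * e).norm = U.norm + Z.norm →
      (U * Z).norm ≤ (e⁻¹ * (U * Z) * e).norm := by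
    intro e
    have e1 : e⁻¹ * U * e = (p * e)⁻¹ * u * (p * e) := by rw [hU]; group
    have e2 : e⁻¹ * Z * e = (p * e)⁻¹ * z * (p * e) := by rw [hZ]; group
    have e3 : e⁻¹ * (U * Z) * e = (p * e)⁻¹ * (u * z) * (p * e) := by rw [hU, hZ]; group
    have e4 : U * Z = p⁻¹ * (u * z) * p := by rw [hU, hZ]; group
    rw [e1, e2, e3, e4, hU, hZ]
    exact hp2 (p * e)
  have hconj : U * U * (Z * Z) = p⁻¹ * (u * u * v * (u * u) * v⁻¹) * p := by
    rw [hU, hZ, hz]; group
  obtain ⟨G, C, a1, a2, a3, a4, a5⟩ := sq U hU1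
  by_cases hG : G = []
  · obtain ⟨G', C', b1, b2, b3, b4, b5⟩ := sq Z hZ1
    by_cases hG' : G' = []
    · subst hG hG'
      refine caseC U Z k ?_ ?_ hZk hk0 hk1 hUZ M1 M2 p _ hw hconj
      · rw [a1]; simpa [invRev] using a3
      · rw [b1]; simpa [invRev] using b3
    · refine caseA Z U hU1 G' C' hG' b1 b4 b5 ?_ (p * (U * U)) _ hw ?_
      · intro e
        have := M1 e
        omega
      · have : (p * (U * U))⁻¹ * (u * u * v * (u * u) * v⁻¹) * (p * (U * U)) =
          (U * U)⁻¹ * (p⁻¹ * (u * u * v * (u * u) * v⁻¹) * p) * (U * U) := by group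
        rw [this, ← hconj]; group
  · exact caseA U Z hZ1 G C hG a1 a4 a5 M1 p _ hw hconj

end words

section main

variable {r : ℕ}

/-- `w` is partially positive: some generator occurs in the reduced word of `w`, and its inverse
does not occur. -/
def PartiallyPositive (w : FreeGroup (Fin r)) : Prop :=
  ∃ a : Fin r, (a, true) ∈ w.toWord ∧ (a, false) ∉ w.toWord

/-- `w` is positive: it lies in the submonoid generated by the basis. -/
def IsPositive {Y : Type} (w : FreeGroup Y) : Prop :=
  w ∈ Submonoid.closure (Set.range (FreeGroup.of : Y → FreeGroup Y))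

/-- `w` is potentially positive: some automorphism maps it to a positive word. -/
def PotentiallyPositive (w : FreeGroup (Fin r)) : Prop :=
  ∃ φ : FreeGroup (Fin r) ≃* FreeGroup (Fin r), IsPositive (φ w)

theorem pos_of_isPositive {Y : Type} [DecidableEq Y] (w : FreeGroup Y) (hw : IsPositive w) :
    Pos w.toWord := by
  have h : ∃ L : List (Y × Bool), Pos L ∧ w = mk L := by
    unfold IsPositive at hw
    induction hw using Submonoid.closure_induction with
    | mem x hx =>
      obtain ⟨y, rfl⟩ := hx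
      exact ⟨[(y, true)], by intro z hz; simp at hz; simp [hz], rfl⟩
    | one => exact ⟨[], by intro z hz; simp at hz, one_eq_mk⟩
    | mul x y _ _ hx hy =>
      obtain ⟨L, hL, rfl⟩ := hx
      obtain ⟨L', hL', rfl⟩ := hy
      refine ⟨L ++ L', ?_, mul_mk⟩
      intro z hz
      rcases List.mem_append.mp hz with h | h
      · exact hL z h
      · exact hL' z h
  obtain ⟨L, hL, rfl⟩ := h
  intro x hx
  rw [toWord_mk] at hx
  exact hL x ((reduce.red (L := L)).sublist.subset hx)

/-- **MP_bbb74b_al, Q1 (disproof).** For every `r ≥ 3` there is a partially positive word in the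
free group of rank `r` which is not potentially positive; moreover no injective homomorphism to a
free group maps it to a positive word. The word is `a²[b,c]a²[b,c]⁻¹`. -/
theorem result (r : ℕ) (hr : 3 ≤ r) : ∃ w : FreeGroup (Fin r), PartiallyPositive w ∧
    ¬ PotentiallyPositive w ∧ ∀ (Y : Type) (φ : FreeGroup (Fin r) →* FreeGroup Y),
      Function.Injective φ → ¬ IsPositive (φ w) := by
  classical
  obtain ⟨a, ha⟩ : ∃ a : Fin r, a = ⟨0, by omega⟩ := ⟨_, rfl⟩
  obtain ⟨b, hb⟩ : ∃ b : Fin r, b = ⟨1, by omega⟩ := ⟨_, rfl⟩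
  obtain ⟨c, hc⟩ : ∃ c : Fin r, c = ⟨2, by omega⟩ := ⟨_, rfl⟩
  have hab : a ≠ b := by rw [ha, hb]; simp
  have hac : a ≠ c := by rw [ha, hc]; simp
  have hbc : b ≠ c := by rw [hb, hc]; simp
  obtain ⟨x, hx⟩ : ∃ x : FreeGroup (Fin r), x = FreeGroup.of a := ⟨_, rfl⟩
  obtain ⟨v, hv⟩ : ∃ v : FreeGroup (Fin r), v = FreeGroup.of b * FreeGroup.of c * (FreeGroup.of b)⁻¹ * (FreeGroup.of c)⁻¹ :=
    ⟨_, rfl⟩
  have hvw : v = mk [(b, true), (c, true), (b, false), (c, false)] := by
    rw [hv]
    simp only [FreeGroup.of, inv_mk, mul_mk]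
    simp [invRev]
  have hv1 : v ≠ 1 := by
    intro h
    have h1 : v.toWord = [(b, true), (c, true), (b, false), (c, false)] := by
      rw [hvw, toWord_mk]
      apply IsReduced.reduce_eq
      simp [FreeGroup.IsReduced, hbc, hbc.symm]
    rw [h] at h1
    simp at h1
  have hinj : ∀ (Y : Type) (φ : FreeGroup (Fin r) →* FreeGroup Y),
      Function.Injective φ → ¬ IsPositive (φ (x * x * v * (x * x) * v⁻¹)) := by
    intro Y φ hφ hpos
    have h1 := pos_of_isPositive _ hpos
    rw [_root_.map_mul, _root_.map_mul, _root_.map_mul, _root_.map_mul, _root_.map_inv] at h1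
    refine core (φ x) (φ v) ?_ ?_ ?_ h1
    · rw [hv, _root_.map_mul, _root_.map_mul, _root_.map_mul, _root_.map_inv, _root_.map_inv,
        hgt_mul, hgt_mul, hgt_mul, hgt_inv, hgt_inv]
      ring
    · intro h
      apply hv1
      apply hφ
      rw [h, _root_.map_one]
    · intro h
      have h2 : x * (v * x * v⁻¹) = 1 := by
        apply hφ
        rw [_root_.map_one, ← h]
        simp only [_root_.map_mul, _root_.map_inv]
      have h3 := congrArg hgt h2
      rw [hgt_one, hgt_mul, hgt_mul, hgt_mul, hgt_inv, hx, hgt_of] at h3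
      omega
  refine ⟨x * x * v * (x * x) * v⁻¹, ?_, ?_, hinj⟩
  · refine ⟨a, ?_⟩
    have h1 : (x * x * v * (x * x) * v⁻¹).toWord = [(a, true), (a, true), (b, true), (c, true),
        (b, false), (c, false), (a, true), (a, true), (c, true), (b, true), (c, false),
        (b, false)] := by
      rw [hvw, hx]
      simp only [FreeGroup.of, inv_mk, mul_mk]
      rw [toWord_mk]
      have : [(a, true)] ++ [(a, true)] ++ [(b, true), (c, true), (b, false), (c, false)] ++
        ([(a, true)] ++ [(a, true)]) ++ invRev [(b, true), (c, true), (b, false), (c, false)] =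
        [(a, true), (a, true), (b, true), (c, true),
        (b, false), (c, false), (a, true), (a, true), (c, true), (b, true), (c, false),
        (b, false)] := by simp [invRev]
      rw [this]
      apply IsReduced.reduce_eq
      simp [FreeGroup.IsReduced, hab, hac, hbc, hbc.symm, hac.symm]
    rw [h1]
    simp [hab, hac]
  · rintro ⟨φ, hφ⟩
    exact hinj _ φ.toMonoidHom φ.injective hφ

end main

end Pool.Agent.Results.MP_bbb74b_al.NotPotentiallyPositive
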